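import Mathlib
import Pool.Agent.H770R3.ShimF

/-!
Shimorin certificates for complete Pick pairs.

Every complete Pick pair `(k, l)` of kernels such that `k(x,x) = 0` whenever `l(x,x) = 0` (for
instance, `l` has no zero on the diagonal) has a Shimorin certificate; without the condition the
statement fails, already on a three-point set.

Idea of the proof. By induction on the number of points, complete Pick pairs have the tangential
interpolation property: data `W_x^* v = w` given only for `v` in a subspace `H_x` of `ℂ^N` and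
satisfying the Pick inequality extend to full data. If a certificate at `z` did not exist on a finite
set, semidefinite duality would give tangential data which cannot be extended to `z`. A compactness
argument passes from finite sets to `X`.
-/

set_option autoImplicit false

namespace Pool.Agent.Results.MP_e3a8c8_an.ShimorinCertificates

open scoped InnerProductSpace ComplexOrder ComplexConjugate
open Matrix

universe u

/-- A kernel on `X`: a positive semidefinite function `X × X → ℂ`. -/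
structure Kernel (X : Type u) where
  /-- the function -/
  fn : Matrix X X ℂ
  /-- positive semidefiniteness -/
  psd : fn.PosSemidef

/-- The operator-valued kernel `k(x,y) I_N`, whose reproducing kernel Hilbert space is
`H_k ⊗ ℂ^N`. -/
noncomputable def tensorFn {X : Type u} (N : ℕ) (k : Matrix X X ℂ) :
    Matrix X X (EuclideanSpace ℂ (Fin N) →L[ℂ] EuclideanSpace ℂ (Fin N)) :=
  Matrix.of fun x y => k x y • ContinuousLinearMap.id ℂ (EuclideanSpace ℂ (Fin N))

theorem tensorFn_psd {X : Type u} (N : ℕ) {k : Matrix X X ℂ} (hk : k.PosSemidef) :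
    (tensorFn N k).PosSemidef := by
  have hh : (tensorFn N k).IsHermitian := by
    refine Matrix.ext fun x y => ?_
    rw [Matrix.conjTranspose_apply]
    apply ContinuousLinearMap.ext
    intro v
    apply ext_inner_right ℂ
    intro w
    rw [ContinuousLinearMap.star_eq_adjoint, ContinuousLinearMap.adjoint_inner_left]
    simp only [tensorFn, Matrix.of_apply, _root_.smul_apply, ContinuousLinearMap.id_apply,
      inner_smul_left, inner_smul_right, H770R3.Shim.psd_herm hk]
  have key : (tensorFn N k).PosSemidef ↔ (tensorFn N k).IsHermitian ∧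
      ∀ (vv : X →₀ EuclideanSpace ℂ (Fin N)), 0 ≤ RCLike.re (vv.sum fun x w ↦
        vv.sum fun x' w' ↦ ⟪(tensorFn N k) x' x w, w'⟫_ℂ) := RKHS.posSemidef_tfae.out 0 2
  refine key.mpr ⟨hh, fun vv => ?_⟩
  have h1 := H770R3.Shim.Q_nonneg hk vv.support vv
  have h2 : (vv.sum fun x w ↦ vv.sum fun x' w' ↦ ⟪(tensorFn N k) x' x w, w'⟫_ℂ)
      = ∑ i ∈ vv.support, ∑ j ∈ vv.support, k i j * ⟪vv i, vv j⟫_ℂ := by
    simp only [Finsupp.sum]
    refine Finset.sum_congr rfl fun i _ => Finset.sum_congr rfl fun j _ => ?_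
    simp only [tensorFn, Matrix.of_apply, _root_.smul_apply, ContinuousLinearMap.id_apply,
      inner_smul_left, H770R3.Shim.psd_herm hk]
  rw [h2]
  exact h1

instance {X : Type u} (N : ℕ) (k : Kernel X) : Fact (tensorFn N k.fn).PosSemidef :=
  ⟨tensorFn_psd N k.psd⟩

/-- The Hilbert space `H_k ⊗ ℂ^N` of `ℂ^N`-valued functions on `X`: the reproducing kernel
Hilbert space with kernel `k(x,y) I_N`. -/
abbrev Space {X : Type u} (k : Kernel X) (N : ℕ) : Type u := RKHS.OfKernel (tensorFn N k.fn)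

/-- `Φ : X → M_N` is a multiplier from `H_k ⊗ ℂ^N` to `H_l ⊗ ℂ^N` of norm at most one: for
every `f` in the first space the pointwise product `x ↦ Φ(x) f(x)` lies in the second space and has
norm at most `‖f‖`. -/
def IsContractiveMultiplier {X : Type u} {N : ℕ} (k l : Kernel X)
    (Φ : X → Matrix (Fin N) (Fin N) ℂ) : Prop :=
  ∀ f : Space k N, ∃ g : Space l N, (∀ x, g x = Matrix.toEuclideanLin (Φ x) (f x)) ∧ ‖g‖ ≤ ‖f‖

/-- The Pick matrix `[l(x,y) I_N - k(x,y) W_x W_y^*]`, `x, y ∈ F`, as a scalar matrix. -/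
noncomputable def pickMatrix {X : Type u} {N : ℕ} (k l : Kernel X) (F : Finset X)
    (W : X → Matrix (Fin N) (Fin N) ℂ) : Matrix (F × Fin N) (F × Fin N) ℂ :=
  Matrix.of fun a b =>
    (l.fn a.1 b.1 • (1 : Matrix (Fin N) (Fin N) ℂ) - k.fn a.1 b.1 • (W a.1 * (W b.1)ᴴ)) a.2 b.2

/-- `(k, l)` is a complete Pick pair: for every `N ≥ 1`, every non-empty finite set `F` of points
of `X` and all `W_x ∈ M_N`, `x ∈ F`, with positive semidefinite Pick matrix there is a multiplier
`Φ` of norm at most one from `H_k ⊗ ℂ^N` to `H_l ⊗ ℂ^N` with `Φ(x) = W_x` for all `x ∈ F`. -/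
def IsCPPair {X : Type u} (k l : Kernel X) : Prop :=
  ∀ N : ℕ, 1 ≤ N → ∀ F : Finset X, F.Nonempty → ∀ W : X → Matrix (Fin N) (Fin N) ℂ,
    (pickMatrix k l F W).PosSemidef →
      ∃ Φ : X → Matrix (Fin N) (Fin N) ℂ, IsContractiveMultiplier k l Φ ∧ ∀ x ∈ F, Φ x = W x

/-- The function `k^z(x,y) = k(x,y) - k(x,z) k(z,y) / k(z,z)`. When `k(z,z) = 0` the quotient is
zero by the convention `a / 0 = 0`, so that `k^z = k` in that case. -/
noncomputable def reduced {X : Type u} (k : Kernel X) (z : X) : Matrix X X ℂ :=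
  Matrix.of fun x y => k.fn x y - k.fn x z * k.fn z y / k.fn z z

/-- `(k, l)` has a Shimorin certificate: a family `p[z]`, `z ∈ X`, of kernels on `X` such that
`l^z - p[z] l` and `p[z] k - k^z` are kernels for every `z ∈ X` (`⊙` is the pointwise product). -/
def HasShimorinCertificate {X : Type u} (k l : Kernel X) : Prop :=
  ∃ p : X → Kernel X, ∀ z : X,
    (reduced l z - (p z).fn ⊙ l.fn).PosSemidef ∧ ((p z).fn ⊙ k.fn - reduced k z).PosSemidef

section multiplier
open H770R3.Shim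
variable {X : Type u} {N : ℕ}

/-- the adjoint linear map of the value of `Φ` -/
noncomputable abbrev adjMap (Φ : X → Matrix (Fin N) (Fin N) ℂ) (x : X) : E N →ₗ[ℂ] E N :=
  Matrix.toEuclideanLin (Φ x)ᴴ

lemma inner_adjMap (A : Matrix (Fin N) (Fin N) ℂ) (v w : E N) :
    ⟪Matrix.toEuclideanLin Aᴴ v, w⟫_ℂ = ⟪v, Matrix.toEuclideanLin A w⟫_ℂ := by
  rw [Matrix.toEuclideanLin_conjTranspose_eq_adjoint, LinearMap.adjoint_inner_left]

lemma inner_kf (k : Kernel X) (x y : X) (v w : E N) :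
    ⟪RKHS.kerFun (Space k N) x v, RKHS.kerFun (Space k N) y w⟫_ℂ = k.fn x y * ⟪v, w⟫_ℂ := by
  rw [← RKHS.kernel_inner, RKHS.OfKernel.kernel_ofKernel]
  simp only [tensorFn, Matrix.of_apply, _root_.smul_apply, ContinuousLinearMap.id_apply,
    inner_smul_left, psd_herm k.psd]

lemma norm_sum_kf (k : Kernel X) (F : Finset X) (h : X → E N) :
    ‖∑ i ∈ F, RKHS.kerFun (Space k N) i (h i)‖ ^ 2 = Q k.fn F h := by
  have h1 : ((‖∑ i ∈ F, RKHS.kerFun (Space k N) i (h i)‖ ^ 2 : ℝ) : ℂ)
      = ∑ i ∈ F, ∑ j ∈ F, k.fn i j * ⟪h i, h j⟫_ℂ := by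
    have h2 := inner_self_eq_norm_sq_to_K (𝕜 := ℂ) (∑ i ∈ F, RKHS.kerFun (Space k N) i (h i))
    push_cast
    rw [← Complex.coe_algebraMap, ← h2, sum_inner]
    refine Finset.sum_congr rfl fun i _ => ?_
    rw [inner_sum]
    exact Finset.sum_congr rfl fun j _ => inner_kf k i j _ _
  have h3 := congrArg Complex.re h1
  rw [Complex.ofReal_re] at h3
  exact h3

/-- a contractive multiplier satisfies the Pick inequality on every finite set -/
lemma Q_of_multiplier {k l : Kernel X} {Φ : X → Matrix (Fin N) (Fin N) ℂ}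
    (hΦ : IsContractiveMultiplier k l Φ) (F : Finset X) (h : X → E N) :
    Q k.fn F (fun i => adjMap Φ i (h i)) ≤ Q l.fn F h := by
  set f : Space k N := ∑ i ∈ F, RKHS.kerFun (Space k N) i (adjMap Φ i (h i)) with hf
  obtain ⟨g, hg1, hg2⟩ := hΦ f
  have e1 : ‖f‖ ^ 2 = Q k.fn F (fun i => adjMap Φ i (h i)) := norm_sum_kf k F _
  have e2 : ‖∑ i ∈ F, RKHS.kerFun (Space l N) i (h i)‖ ^ 2 = Q l.fn F h := norm_sum_kf l F _
  have e3 : ⟪f, f⟫_ℂ = ⟪∑ i ∈ F, RKHS.kerFun (Space l N) i (h i), g⟫_ℂ := by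
    conv_lhs => rw [hf]
    rw [sum_inner, sum_inner]
    refine Finset.sum_congr rfl fun i _ => ?_
    rw [← hf, RKHS.kerFun_inner, RKHS.kerFun_inner, inner_adjMap, hg1]
  have e4 : ‖f‖ ^ 2 ≤ ‖∑ i ∈ F, RKHS.kerFun (Space l N) i (h i)‖ * ‖f‖ := by
    have h1 : ‖⟪f, f⟫_ℂ‖ = ‖f‖ ^ 2 := by
      rw [inner_self_eq_norm_sq_to_K]; simp
    rw [← h1, e3]
    exact (norm_inner_le_norm _ _).trans (mul_le_mul_of_nonneg_left hg2 (norm_nonneg _))
  have e5 : ‖f‖ ≤ ‖∑ i ∈ F, RKHS.kerFun (Space l N) i (h i)‖ := by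
    rcases (norm_nonneg f).lt_or_eq with h0 | h0
    · have : ‖f‖ * ‖f‖ ≤ ‖∑ i ∈ F, RKHS.kerFun (Space l N) i (h i)‖ * ‖f‖ := by
        rw [← sq]; exact e4
      exact le_of_mul_le_mul_right this h0
    · rw [← h0]; exact norm_nonneg _
  rw [← e1, ← e2]
  exact pow_le_pow_left₀ (norm_nonneg _) e5 2

/-- the Pick inequality on all finite sets gives a contractive multiplier -/
lemma multiplier_of_Q {k l : Kernel X} {Φ : X → Matrix (Fin N) (Fin N) ℂ}
    (hQ : ∀ (F : Finset X) (h : X → E N), Q k.fn F (fun i => adjMap Φ i (h i)) ≤ Q l.fn F h) :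
    IsContractiveMultiplier k l Φ := by
  classical
  intro f
  -- the two maps on finitely supported functions
  let Ψ : (X →₀ E N) →ₗ[ℂ] Space l N :=
    Finsupp.lsum ℂ fun x => (RKHS.kerFun (Space l N) x : E N →ₗ[ℂ] Space l N)
  let Θ : (X →₀ E N) →ₗ[ℂ] Space k N :=
    Finsupp.lsum ℂ fun x => (RKHS.kerFun (Space k N) x : E N →ₗ[ℂ] Space k N) ∘ₗ adjMap Φ x
  have hΨ : ∀ v : X →₀ E N, Ψ v = ∑ i ∈ v.support, RKHS.kerFun (Space l N) i (v i) := fun v => rfl
  have hΘ : ∀ v : X →₀ E N, Θ v = ∑ i ∈ v.support, RKHS.kerFun (Space k N) i (adjMap Φ i (v i)) :=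
    fun v => rfl
  have hle : ∀ v, ‖Θ v‖ ≤ ‖Ψ v‖ := by
    intro v
    rw [← sq_le_sq₀ (norm_nonneg _) (norm_nonneg _), hΨ, hΘ, norm_sum_kf, norm_sum_kf]
    exact hQ v.support v
  let lam : (X →₀ E N) →ₗ[ℂ] ℂ := (innerSL ℂ f : Space k N →ₗ[ℂ] ℂ) ∘ₗ Θ
  have hlam : ∀ v, lam v = ⟪f, Θ v⟫_ℂ := fun v => rfl
  have hlamle : ∀ v, ‖lam v‖ ≤ ‖f‖ * ‖Ψ v‖ := by
    intro v
    rw [hlam]
    exact (norm_inner_le_norm _ _).trans (mul_le_mul_of_nonneg_left (hle v) (norm_nonneg _))
  obtain ⟨s, hs⟩ := Ψ.rangeRestrict.exists_rightInverse_of_surjective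
    (LinearMap.range_eq_top.mpr Ψ.surjective_rangeRestrict)
  have hs' : ∀ w : LinearMap.range Ψ, Ψ (s w) = w := by
    intro w
    have h1 : Ψ.rangeRestrict (s w) = w := LinearMap.congr_fun hs w
    exact congrArg Subtype.val h1
  let lam' : LinearMap.range Ψ →L[ℂ] ℂ := (lam ∘ₗ s).mkContinuous ‖f‖ (by
    intro w
    have := hlamle (s w)
    rw [hs'] at this
    exact this)
  obtain ⟨G, hG1, hG2⟩ := exists_extension_norm_eq (LinearMap.range Ψ) lam'
  have hGn : ‖G‖ ≤ ‖f‖ := by
    rw [hG2]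
    exact LinearMap.mkContinuous_norm_le _ (norm_nonneg _) _
  have hGΨ : ∀ v, G (Ψ v) = lam v := by
    intro v
    have h1 := hG1 ⟨Ψ v, v, rfl⟩
    rw [h1]
    have h2 : lam' ⟨Ψ v, v, rfl⟩ = lam (s ⟨Ψ v, v, rfl⟩) := rfl
    rw [h2]
    have h3 := hlamle (s ⟨Ψ v, v, rfl⟩ - v)
    rw [map_sub, map_sub, hs', sub_self, norm_zero, mul_zero] at h3
    exact sub_eq_zero.mp (norm_le_zero_iff.mp h3)
  let g : Space l N := (InnerProductSpace.toDual ℂ (Space l N)).symm G
  refine ⟨g, fun x => ?_, ?_⟩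
  · refine ext_inner_right ℂ fun v => ?_
    have h1 : ⟪g, Ψ (Finsupp.single x v)⟫_ℂ = lam (Finsupp.single x v) := by
      rw [← hGΨ]
      exact InnerProductSpace.toDual_symm_apply
    have h2 : Ψ (Finsupp.single x v) = RKHS.kerFun (Space l N) x v := by
      simp [Ψ]
    have h3 : lam (Finsupp.single x v) = ⟪f, RKHS.kerFun (Space k N) x (adjMap Φ x v)⟫_ℂ := by
      rw [hlam]; simp [Θ]
    rw [h2, h3, RKHS.inner_kerFun, RKHS.inner_kerFun] at h1
    rw [h1]
    rw [← inner_conj_symm, inner_adjMap, inner_conj_symm]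
  · have : ‖g‖ = ‖G‖ := LinearIsometryEquiv.norm_map _ _
    rw [this]
    exact hGn

/-- the Pick matrix is positive iff the Pick inequality holds -/
lemma pick_iff {k l : Kernel X} (F : Finset X) (W : X → Matrix (Fin N) (Fin N) ℂ) :
    (pickMatrix k l F W).PosSemidef ↔
      ∀ h : X → E N, Q k.fn F (fun i => adjMap W i (h i)) ≤ Q l.fn F h := by
  classical
  have hP : pickMatrix k l F W
      = formMat l.fn F (fun _ => LinearMap.id) - formMat k.fn F (adjMap W) := by
    ext a b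
    simp only [pickMatrix, formMat, Matrix.of_apply, Matrix.sub_apply, Matrix.smul_apply,
      smul_eq_mul, LinearMap.id_apply]
    congr 1
    · congr 1
      rw [EuclideanSpace.inner_single_left]
      simp [Matrix.one_apply]
    · congr 1
      rw [inner_adjMap, EuclideanSpace.inner_single_left, map_one, one_mul]
      simp [Matrix.toLpLin_apply, Matrix.mul_apply, Matrix.mulVec, dotProduct]
  have hform : ∀ h : X → E N, (star (coord F h) ⬝ᵥ (pickMatrix k l F W *ᵥ coord F h)).re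
      = Q l.fn F h - Q k.fn F (fun i => adjMap W i (h i)) := by
    intro h
    rw [hP, Matrix.sub_mulVec, dotProduct_sub, formMat_apply, formMat_apply, Complex.sub_re]
    rfl
  constructor
  · intro hp h
    have h1 := (Complex.nonneg_iff.mp (hp.dotProduct_mulVec_nonneg (coord F h))).1
    rw [hform] at h1
    linarith
  · intro hQ
    have hh : (pickMatrix k l F W).IsHermitian := by
      rw [hP]
      exact (formMat_herm (psd_herm l.psd) F _).sub (formMat_herm (psd_herm k.psd) F _)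
    refine Matrix.PosSemidef.of_dotProduct_mulVec_nonneg hh fun c => ?_
    let h : X → E N := fun i => if hi : i ∈ F then WithLp.toLp 2 (fun m => c (⟨i, hi⟩, m)) else 0
    have hc : coord F h = c := by
      ext ⟨i, m⟩
      simp [coord, h]
    rw [Complex.nonneg_iff]
    constructor
    · rw [← hc, hform]
      linarith [hQ h]
    · exact (hh.im_star_dotProduct_mulVec_self c).symm

/-- a complete Pick pair has the one-point extension property -/
lemma onePoint_of_cp {k l : Kernel X} (hcp : IsCPPair k l) (N : ℕ) : OnePoint N k.fn l.fn := by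
  classical
  intro F z hz S hS h
  rcases Nat.eq_zero_or_pos N with hN | hN
  · subst hN
    have : ∀ (g : Matrix X X ℂ) (h' : X → E 0), Q g F h' = 0 := by
      intro g h'
      unfold Q
      have : ∀ i ∈ F, (∑ j ∈ F, g i j * ⟪h' i, h' j⟫_ℂ) = 0 := fun i _ =>
        Finset.sum_eq_zero fun j _ => by
          rw [Subsingleton.elim (h' i) 0, inner_zero_left, mul_zero]
      rw [Finset.sum_eq_zero this]; simp
    rw [this, this]
  rcases F.eq_empty_or_nonempty with hF | hF
  · subst hF; simp [Q]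
  let W : X → Matrix (Fin N) (Fin N) ℂ := fun x => (Matrix.toEuclideanLin.symm (S x))ᴴ
  have hW : ∀ x, adjMap W x = S x := by
    intro x
    simp only [adjMap, W, Matrix.conjTranspose_conjTranspose, LinearEquiv.apply_symm_apply]
  obtain ⟨Φ, hΦ1, hΦ2⟩ := hcp N hN F hF W ((pick_iff F W).mpr (by
    intro h'
    simp only [hW]
    exact hS h'))
  let h' : X → E N := Function.update h z (-∑ j ∈ F, (l.fn z j / l.fn z z) • h j)
  have hne : ∀ i ∈ F, i ≠ z := fun i hi e => hz (e ▸ hi)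
  have h1 := Q_of_multiplier hΦ1 (insert z F) h'
  rw [Q_insert k.psd hz, Q_insert l.psd hz] at h1
  have e1 : Q (red k.fn z) F (fun i => adjMap Φ i (h' i)) = Q (red k.fn z) F (fun i => S i (h i)) :=
    Q_congr _ fun i hi => by
      have : adjMap Φ i = S i := by rw [← hW i]; simp only [adjMap, hΦ2 i hi]
      rw [this]
      simp only [h', Function.update_of_ne (hne i hi)]
  have e2 : Q (red l.fn z) F h' = Q (red l.fn z) F h :=
    Q_congr _ fun i hi => by simp only [h', Function.update_of_ne (hne i hi)]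
  have e3 : h' z + ∑ j ∈ F, (l.fn z j / l.fn z z) • h' j = 0 := by
    have : ∑ j ∈ F, (l.fn z j / l.fn z z) • h' j = ∑ j ∈ F, (l.fn z j / l.fn z z) • h j :=
      Finset.sum_congr rfl fun j hj => by simp only [h', Function.update_of_ne (hne j hj)]
    rw [this]
    simp [h']
  rw [e1, e2, e3, norm_zero] at h1
  have h2 := mul_nonneg (psd_diag_re k.psd z)
    (sq_nonneg ‖(fun i => adjMap Φ i (h' i)) z + ∑ j ∈ F, (k.fn z j / k.fn z z) • (fun i => adjMap Φ i (h' i)) j‖)
  nlinarith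

end multiplier

/-- A complete Pick pair `(k, l)` such that `k(x,x) = 0` whenever `l(x,x) = 0` has a Shimorin
certificate. -/
theorem certificate_of_cp {X : Type u} (k l : Kernel X) (hl : ∀ x, l.fn x x = 0 → k.fn x x = 0)
    (hcp : IsCPPair k l) : HasShimorinCertificate k l := by
  choose p hp using fun z : X => H770R3.Shim.cert k.psd l.psd hl (onePoint_of_cp hcp) z
  exact ⟨fun z => ⟨p z, (hp z).1⟩, fun z => ⟨(hp z).2.1, (hp z).2.2⟩⟩

section degenerate
open H770R3.Shim

/-- the kernel `k` of the example on the three-point set -/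
noncomputable def exk : Matrix (Fin 3) (Fin 3) ℂ := !![1, 0, 1/2; 0, 1, 1/2; 1/2, 1/2, 1]

/-- the kernel `l` of the example on the three-point set -/
noncomputable def exl : Matrix (Fin 3) (Fin 3) ℂ := !![1, 0, 1/2; 0, 0, 0; 1/2, 0, 1]

lemma re_conj_mul_self (a : ℂ) : (conj a * a).re = ‖a‖ ^ 2 := by
  rw [← Complex.normSq_eq_conj_mul_self, Complex.ofReal_re, Complex.normSq_eq_norm_sq]

lemma exk_psd : exk.PosSemidef := by
  refine psd_of_univ ?_ fun c => ?_
  · intro i j
    fin_cases i <;> fin_cases j <;> simp [exk, map_ofNat]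
  · have h : (∑ i, ∑ j, conj (c i) * exk i j * c j)
      = (1/2 : ℝ) * (conj (c 0 + c 2) * (c 0 + c 2)) + (1/2 : ℝ) * (conj (c 1 + c 2) * (c 1 + c 2))
        + (1/2 : ℝ) * (conj (c 0) * c 0) + (1/2 : ℝ) * (conj (c 1) * c 1) := by
      simp only [Fin.sum_univ_three, exk, Matrix.of_apply, Matrix.cons_val', Matrix.cons_val_zero,
        Matrix.cons_val_one, Matrix.cons_val, map_add]
      push_cast
      ring
    rw [h]
    simp only [Complex.add_re, Complex.re_ofReal_mul, re_conj_mul_self]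
    positivity

lemma exl_psd : exl.PosSemidef := by
  refine psd_of_univ ?_ fun c => ?_
  · intro i j
    fin_cases i <;> fin_cases j <;> simp [exl, map_ofNat]
  · have h : (∑ i, ∑ j, conj (c i) * exl i j * c j)
      = (1/2 : ℝ) * (conj (c 0 + c 2) * (c 0 + c 2))
        + (1/2 : ℝ) * (conj (c 0) * c 0) + (1/2 : ℝ) * (conj (c 2) * c 2) := by
      simp only [Fin.sum_univ_three, exl, Matrix.of_apply, Matrix.cons_val', Matrix.cons_val_zero,
        Matrix.cons_val_one, Matrix.cons_val, map_add]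
      push_cast
      ring
    rw [h]
    simp only [Complex.add_re, Complex.re_ofReal_mul, re_conj_mul_self]
    positivity

/-- the kernel `k` of the example -/
noncomputable def kerk : Kernel (Fin 3) := ⟨exk, exk_psd⟩

/-- the kernel `l` of the example -/
noncomputable def kerl : Kernel (Fin 3) := ⟨exl, exl_psd⟩

lemma Q_supp {N : ℕ} (g : Matrix (Fin 3) (Fin 3) ℂ) (F : Finset (Fin 3)) (h : Fin 3 → E N)
    (hs : ∀ i, i ∉ F → h i = 0) : Q g F h = Q g Finset.univ h := by
  unfold Q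
  congr 1
  rw [← Finset.sum_subset (Finset.subset_univ F)]
  · refine Finset.sum_congr rfl fun i hi => ?_
    rw [← Finset.sum_subset (Finset.subset_univ F)]
    intro j _ hj
    rw [hs j hj, inner_zero_right, mul_zero]
  · intro i _ hi
    exact Finset.sum_eq_zero fun j _ => by rw [hs i hi, inner_zero_left, mul_zero]

lemma re_inner_self' {N : ℕ} (v : E N) : (⟪v, v⟫_ℂ).re = ‖v‖ ^ 2 := by
  rw [inner_self_eq_norm_sq_to_K]
  simp [← Complex.ofReal_pow]

lemma re_inner_comm' {N : ℕ} (v w : E N) : (⟪w, v⟫_ℂ).re = (⟪v, w⟫_ℂ).re := by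
  rw [← inner_conj_symm, Complex.conj_re]

lemma half_re (a : ℂ) : (1 / 2 * a).re = 1 / 2 * a.re := by
  have : (1 / 2 : ℂ) = ((1 / 2 : ℝ) : ℂ) := by push_cast; rfl
  rw [this, Complex.re_ofReal_mul]

lemma Qk_univ {N : ℕ} (h : Fin 3 → E N) : Q kerk.fn Finset.univ h
    = ‖h 0‖ ^ 2 + ‖h 1‖ ^ 2 + ‖h 2‖ ^ 2 + (⟪h 0, h 2⟫_ℂ).re + (⟪h 1, h 2⟫_ℂ).re := by
  unfold Q
  simp only [Fin.sum_univ_three, kerk, exk, Matrix.of_apply, Matrix.cons_val', Matrix.cons_val_zero,
    Matrix.cons_val_one, Matrix.cons_val, one_mul, zero_mul, add_zero, zero_add, Complex.add_re,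
    re_inner_self', half_re]
  rw [re_inner_comm' (h 0) (h 2), re_inner_comm' (h 1) (h 2)]
  ring

lemma Ql_univ {N : ℕ} (h : Fin 3 → E N) : Q kerl.fn Finset.univ h
    = ‖h 0‖ ^ 2 + ‖h 2‖ ^ 2 + (⟪h 0, h 2⟫_ℂ).re := by
  unfold Q
  simp only [Fin.sum_univ_three, kerl, exl, Matrix.of_apply, Matrix.cons_val', Matrix.cons_val_zero,
    Matrix.cons_val_one, Matrix.cons_val, one_mul, zero_mul, add_zero, Complex.add_re,
    re_inner_self', half_re]
  rw [re_inner_comm' (h 0) (h 2)]
  ring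

/-- the Pick inequality for the example follows from the inequality at the points `0` and `2` -/
lemma pick_two {N : ℕ} (Φ : Fin 3 → Matrix (Fin N) (Fin N) ℂ) (h1 : Φ 1 = 0)
    (h02 : ∀ v w : E N, ‖adjMap Φ 0 v‖ ^ 2 + ‖adjMap Φ 2 w‖ ^ 2
      + (⟪adjMap Φ 0 v, adjMap Φ 2 w⟫_ℂ).re ≤ ‖v‖ ^ 2 + ‖w‖ ^ 2 + (⟪v, w⟫_ℂ).re)
    (F : Finset (Fin 3)) (h : Fin 3 → E N) :
    Q kerk.fn F (fun i => adjMap Φ i (h i)) ≤ Q kerl.fn F h := by
  classical
  set h' : Fin 3 → E N := fun i => if i ∈ F then h i else 0 with hh'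
  have e1 : Q kerk.fn F (fun i => adjMap Φ i (h i)) = Q kerk.fn F (fun i => adjMap Φ i (h' i)) :=
    Q_congr _ fun i hi => by simp [h', hi]
  have e2 : Q kerl.fn F h = Q kerl.fn F h' := Q_congr _ fun i hi => by simp [h', hi]
  rw [e1, e2, Q_supp _ F _ (fun i hi => by simp [h', hi]), Q_supp _ F h' (fun i hi => by simp [h', hi]),
    Qk_univ, Ql_univ]
  have z1 : adjMap Φ 1 (h' 1) = 0 := by
    simp [adjMap, h1]
  rw [z1, norm_zero, inner_zero_left, Complex.zero_re]
  have := h02 (h' 0) (h' 2)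
  linarith

/-- equal contractive values satisfy the two-point inequality -/
lemma two_equal {N : ℕ} (T : E N →ₗ[ℂ] E N) (hT : ∀ v, ‖T v‖ ^ 2 ≤ ‖v‖ ^ 2) (v w : E N) :
    ‖T v‖ ^ 2 + ‖T w‖ ^ 2 + (⟪T v, T w⟫_ℂ).re ≤ ‖v‖ ^ 2 + ‖w‖ ^ 2 + (⟪v, w⟫_ℂ).re := by
  have h1 : ‖T (v + w)‖ ^ 2 = ‖T v‖ ^ 2 + 2 * (⟪T v, T w⟫_ℂ).re + ‖T w‖ ^ 2 := by
    rw [map_add, @norm_add_sq ℂ]; rfl
  have h2 : ‖v + w‖ ^ 2 = ‖v‖ ^ 2 + 2 * (⟪v, w⟫_ℂ).re + ‖w‖ ^ 2 := by
    rw [@norm_add_sq ℂ]; rfl
  have h3 := hT (v + w)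
  have h4 := hT v
  have h5 := hT w
  rw [h1, h2] at h3
  linarith

lemma example_cp : IsCPPair kerk kerl := by
  classical
  intro N _ F _ W hP
  have hQ := (pick_iff F W).mp hP
  have hQ' : ∀ h : Fin 3 → E N, (∀ i, i ∉ F → h i = 0) →
      Q kerk.fn Finset.univ (fun i => adjMap W i (h i)) ≤ Q kerl.fn Finset.univ h := by
    intro h hs
    have h1 := hQ h
    rw [Q_supp _ F _ (fun i hi => by rw [hs i hi, map_zero]), Q_supp _ F h hs] at h1
    exact h1
  have hW1 : (1 : Fin 3) ∈ F → W 1 = 0 := by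
    intro h1
    have h2 : ∀ v : E N, adjMap W 1 v = 0 := by
      intro v
      have h3 := hQ' (Function.update 0 1 v) (by
        intro i hi
        have : i ≠ 1 := fun e => hi (e ▸ h1)
        simp [Function.update_of_ne this])
      rw [Qk_univ, Ql_univ] at h3
      simp at h3
      exact h3
    have h4 : Matrix.toEuclideanLin (W 1)ᴴ = 0 := LinearMap.ext fun v => h2 v
    have h5 : (W 1)ᴴ = 0 := by
      have := congrArg Matrix.toEuclideanLin.symm h4
      simpa using this
    simpa using congrArg Matrix.conjTranspose h5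
  have hW0 : (0 : Fin 3) ∈ F → ∀ v : E N, ‖adjMap W 0 v‖ ^ 2 ≤ ‖v‖ ^ 2 := by
    intro h1 v
    have h3 := hQ' (Function.update 0 0 v) (by
      intro i hi
      have : i ≠ 0 := fun e => hi (e ▸ h1)
      simp [Function.update_of_ne this])
    rw [Qk_univ, Ql_univ] at h3
    simpa using h3
  have hW2 : (2 : Fin 3) ∈ F → ∀ v : E N, ‖adjMap W 2 v‖ ^ 2 ≤ ‖v‖ ^ 2 := by
    intro h1 v
    have h3 := hQ' (Function.update 0 2 v) (by
      intro i hi
      have : i ≠ 2 := fun e => hi (e ▸ h1)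
      simp [Function.update_of_ne this])
    rw [Qk_univ, Ql_univ] at h3
    simpa using h3
  have hW02 : (0 : Fin 3) ∈ F → (2 : Fin 3) ∈ F → ∀ v w : E N,
      ‖adjMap W 0 v‖ ^ 2 + ‖adjMap W 2 w‖ ^ 2 + (⟪adjMap W 0 v, adjMap W 2 w⟫_ℂ).re
        ≤ ‖v‖ ^ 2 + ‖w‖ ^ 2 + (⟪v, w⟫_ℂ).re := by
    intro h0 h2 v w
    have h3 := hQ' (Function.update (Function.update 0 2 w) 0 v) (by
      intro i hi
      have e0 : i ≠ 0 := fun e => hi (e ▸ h0)
      have e2 : i ≠ 2 := fun e => hi (e ▸ h2)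
      simp [Function.update_of_ne e0, Function.update_of_ne e2])
    rw [Qk_univ, Ql_univ] at h3
    simpa using h3
  let A : Matrix (Fin N) (Fin N) ℂ := if 0 ∈ F then W 0 else if 2 ∈ F then W 2 else 0
  let B : Matrix (Fin N) (Fin N) ℂ := if 2 ∈ F then W 2 else if 0 ∈ F then W 0 else 0
  refine ⟨![A, 0, B], multiplier_of_Q (pick_two _ rfl ?_), ?_⟩
  · intro v w
    show ‖Matrix.toEuclideanLin Aᴴ v‖ ^ 2 + ‖Matrix.toEuclideanLin Bᴴ w‖ ^ 2
      + (⟪Matrix.toEuclideanLin Aᴴ v, Matrix.toEuclideanLin Bᴴ w⟫_ℂ).re ≤ _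
    by_cases h0 : (0 : Fin 3) ∈ F
    · by_cases h2 : (2 : Fin 3) ∈ F
      · simp only [A, B, if_pos h0, if_pos h2]
        exact hW02 h0 h2 v w
      · simp only [A, B, if_pos h0, if_neg h2]
        exact two_equal _ (hW0 h0) v w
    · by_cases h2 : (2 : Fin 3) ∈ F
      · simp only [A, B, if_neg h0, if_pos h2]
        exact two_equal _ (hW2 h2) v w
      · simp only [A, B, if_neg h0, if_neg h2]
        refine two_equal _ (fun u => ?_) v w
        simp
  · intro x hx
    fin_cases x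
    · have : (0 : Fin 3) ∈ F := hx
      simp [A, this]
    · have : (1 : Fin 3) ∈ F := hx
      simp [hW1 this]
    · have : (2 : Fin 3) ∈ F := hx
      simp [B, this]

lemma example_no_certificate : ¬ HasShimorinCertificate kerk kerl := by
  rintro ⟨p, hp⟩
  obtain ⟨h1, h2⟩ := hp 2
  have a1 := psd_diag_re h1 0
  have a2 := psd_diag_re h2 0
  have b1 : (reduced kerl 2 - (p 2).fn ⊙ kerl.fn) 0 0 = 3 / 4 - (p 2).fn 0 0 := by
    simp only [Matrix.sub_apply, Matrix.hadamard_apply, reduced, kerl, exl, Matrix.of_apply,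
      Matrix.cons_val', Matrix.cons_val_zero, Matrix.cons_val]
    norm_num
  have b2 : ((p 2).fn ⊙ kerk.fn - reduced kerk 2) 0 0 = (p 2).fn 0 0 - 3 / 4 := by
    simp only [Matrix.sub_apply, Matrix.hadamard_apply, reduced, kerk, exk, Matrix.of_apply,
      Matrix.cons_val', Matrix.cons_val_zero, Matrix.cons_val]
    norm_num
  have b3 : ((p 2).fn ⊙ kerk.fn - reduced kerk 2) 0 1 = 1 / 4 := by
    simp only [Matrix.sub_apply, Matrix.hadamard_apply, reduced, kerk, exk, Matrix.of_apply,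
      Matrix.cons_val', Matrix.cons_val_zero, Matrix.cons_val_one, Matrix.cons_val]
    norm_num
  have c0 : (3 / 4 : ℂ).re = 3 / 4 := by norm_num
  rw [b1, Complex.sub_re, c0] at a1
  rw [b2, Complex.sub_re, c0] at a2
  have d1 : ((p 2).fn ⊙ kerk.fn - reduced kerk 2) 0 0 = 0 := by
    rw [psd_diag_eq h2 0, b2, Complex.sub_re, c0]
    have : ((p 2).fn 0 0).re - 3 / 4 = 0 := by linarith
    rw [this]; simp
  have d2 := psd_zero_row h2 d1 1
  rw [b3] at d2
  norm_num at d2

end degenerate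

/-- The relation between complete Pick pairs and Shimorin certificates: on every set `X`, every
complete Pick pair `(k, l)` such that `k` vanishes at every diagonal point at which `l` vanishes (in
particular every complete Pick pair with `l(x,x) ≠ 0` for all `x`) has a Shimorin certificate; and
the condition cannot be dropped: on a three-point set there is a complete Pick pair, with
`l(x,x) = 0 ≠ k(x,x)` at one point, which has no Shimorin certificate. -/
theorem result :
    (∀ (X : Type u) (k l : Kernel X), (∀ x, l.fn x x = 0 → k.fn x x = 0) → IsCPPair k l →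
      HasShimorinCertificate k l) ∧
    (∃ k l : Kernel (Fin 3), IsCPPair k l ∧ ¬ HasShimorinCertificate k l) :=
  ⟨fun _ k l hl hcp => certificate_of_cp k l hl hcp, kerk, kerl, example_cp,
    example_no_certificate⟩

end Pool.Agent.Results.MP_e3a8c8_an.ShimorinCertificates
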